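import Pool.Agent.Y469.BL.Main

/-!
# Nonnegative Ricci curvature and embeddings into Hilbert spaces, all dimensions `n ≥ 13`

For every `n ≥ 13` and every `D` there is a complete smooth Riemannian metric of nonnegative Ricci
curvature on the manifold `ℝⁿ` such that the Riemannian distance admits no bi-Lipschitz embedding
of distortion at most `D` into any real inner product space (of finite or infinite dimension). So
the question has a negative answer in every dimension `n ≥ 13`, even if the target is allowed to be
an infinite dimensional Hilbert space.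

The starting file `NoUniformEmbedding` has dimension `13` and the targets `ℝᴺ`. Here the metrics of
that file are multiplied by a flat `ℝᵏ`: Christoffel symbols, curvature, Ricci curvature, distances
and completeness of the product are computed in `Pool/Agent/Y469/BL/Prod.lean` and `Dist.lean` for
an arbitrary metric on `ℝᵐ`; and the inequality between vertical and horizontal increments on the
discrete Heisenberg group is proved for maps into arbitrary inner product spaces
(`Pool/Agent/Y469/BL/Heis.lean`).
-/

set_option autoImplicit false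

namespace Pool.Agent.Results.MP_39014e_gt.HilbertAllDimensions

open Pool.Agent.W555.RG Pool.Agent.TH597.BL

/-- The Riemannian manifold `(ℝⁿ, g)`, with its Riemannian distance, admits a bi-Lipschitz
embedding with distortion at most `D` into the inner product space `E`: a map `f` such that
`s d(x, y) ≤ |f(x) - f(y)| ≤ s D d(x, y)` for some scale `s > 0`. -/
def Embeds {n : ℕ} (g : RMetric (Fin n → ℝ)) (E : Type) [NormedAddCommGroup E]
    [InnerProductSpace ℝ E] (D : ℝ) : Prop :=
  ∃ (f : (Fin n → ℝ) → E) (s : ℝ), 0 < s ∧ ∀ x y : Fin n → ℝ,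
    s * g.dist x y ≤ dist (f x) (f y) ∧ dist (f x) (f y) ≤ s * D * g.dist x y

theorem result (n : ℕ) (hn : 13 ≤ n) :
    (∀ D : ℝ, ∃ g : RMetric (Fin n → ℝ), g.IsComplete ∧ (∀ x u, 0 ≤ Ric g x u u) ∧
      ∀ (E : Type) [NormedAddCommGroup E] [InnerProductSpace ℝ E], ¬ Embeds g E D) ∧
    ¬ ∃ (N : ℕ) (D : ℝ), ∀ g : RMetric (Fin n → ℝ), g.IsComplete → (∀ x u, 0 ≤ Ric g x u u) →
      Embeds g (EuclideanSpace ℝ (Fin N)) D := by
  refine ⟨fun D => Pool.Agent.Y469.BL.main' n hn D, ?_⟩
  rintro ⟨N, D, H⟩
  obtain ⟨g, h1, h2, h3⟩ := Pool.Agent.Y469.BL.main' n hn D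
  exact h3 _ (H g h1 h2)

end Pool.Agent.Results.MP_39014e_gt.HilbertAllDimensions
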